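import Pool.Agent.Lib.MP_0d2fa0_co.Cert

/-! Surjectivity of the cellular automaton given by the table. -/

namespace Pool.Agent.Lib.MP_0d2fa0_co

/-- the cellular automaton with local rule `f` -/
def caL (r : ℕ) (f : (Fin (r + 1) → Bool) → Bool) (x : ℤ → Bool) : ℤ → Bool :=
  fun i => f fun j => x (i + (j : ℕ))

/-- code of a word of length `9` -/
def code (w : Fin (8 + 1) → Bool) : ℕ :=
  256 * (w 0).toNat + 128 * (w 1).toNat + 64 * (w 2).toNat + 32 * (w 3).toNat + 16 * (w 4).toNat +
    8 * (w 5).toNat + 4 * (w 6).toNat + 2 * (w 7).toNat + (w 8).toNat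

/-- the local rule -/
def rule (w : Fin (8 + 1) → Bool) : Bool := table.testBit (code w)

/-- code of the word of length `8` of `x` at position `L` -/
def code8 (x : ℤ → Bool) (L : ℤ) : ℕ :=
  128 * (x L).toNat + 64 * (x (L + 1)).toNat + 32 * (x (L + 2)).toNat + 16 * (x (L + 3)).toNat +
    8 * (x (L + 4)).toNat + 4 * (x (L + 5)).toNat + 2 * (x (L + 6)).toNat + (x (L + 7)).toNat

theorem toNat_le (b : Bool) : b.toNat ≤ 1 := by cases b <;> decide

theorem code_eq (x : ℤ → Bool) (L : ℤ) :
    code (fun j => x (L + ((j : Fin (8 + 1)) : ℕ))) = 2 * code8 x L + (x (L + 8)).toNat := by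
  have h : code (fun j => x (L + ((j : Fin (8 + 1)) : ℕ))) =
      256 * (x (L + (0 : ℕ))).toNat + 128 * (x (L + (1 : ℕ))).toNat + 64 * (x (L + (2 : ℕ))).toNat
      + 32 * (x (L + (3 : ℕ))).toNat + 16 * (x (L + (4 : ℕ))).toNat +
    8 * (x (L + (5 : ℕ))).toNat + 4 * (x (L + (6 : ℕ))).toNat + 2 * (x (L + (7 : ℕ))).toNat +
      (x (L + (8 : ℕ))).toNat := rfl
  rw [h]
  unfold code8
  push_cast
  rw [add_zero]
  ring

theorem finite_window (y : ℤ → Bool) (L : ℕ) : ∃ k < 93, ∀ b < 256, (mask k).testBit b = true →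
    ∃ x : ℤ → Bool, (∀ i : ℕ, i < L → caL 8 rule x i = y i) ∧ code8 x L = b := by
  induction L with
  | zero =>
    refine ⟨0, by norm_num, ?_⟩
    intro b hb _
    refine ⟨fun i => b.testBit (7 - i.toNat), fun i hi => absurd hi (Nat.not_lt_zero _), ?_⟩
    have key : ∀ b < 256, 128 * (b.testBit 7).toNat + 64 * (b.testBit 6).toNat +
        32 * (b.testBit 5).toNat + 16 * (b.testBit 4).toNat + 8 * (b.testBit 3).toNat +
        4 * (b.testBit 2).toNat + 2 * (b.testBit 1).toNat + (b.testBit 0).toNat = b := by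
      decide +kernel
    exact key b hb
  | succ L ih =>
    obtain ⟨k, hk, hx⟩ := ih
    obtain ⟨-, hs⟩ := checkAll_sound checkAll_ok k hk
    obtain ⟨hn, hc⟩ := hs (y L)
    refine ⟨nxt k (y L), hn, ?_⟩
    intro b hb hT
    obtain ⟨e, he, hTa, hF⟩ := chk_sound hc b hb hT
    obtain ⟨x, hx1, hx2⟩ := hx (128 * e + b / 2) (by omega) hTa
    let x' : ℤ → Bool := fun i => if i = (L : ℤ) + 8 then decide (b % 2 = 1) else x i
    have hold : ∀ i : ℤ, i ≠ (L : ℤ) + 8 → x' i = x i := fun i hi => if_neg hi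
    have hnew : x' ((L : ℤ) + 8) = decide (b % 2 = 1) := if_pos rfl
    have hcode8 : code8 x' L = code8 x L := by
      unfold code8
      rw [hold _ (by omega), hold _ (by omega), hold _ (by omega), hold _ (by omega),
        hold _ (by omega), hold _ (by omega), hold _ (by omega), hold _ (by omega)]
    have hb2 : (decide (b % 2 = 1)).toNat = b % 2 := by
      rcases Nat.mod_two_eq_zero_or_one b with h | h <;> rw [h] <;> decide
    refine ⟨x', ?_, ?_⟩
    · intro i hi
      rcases Nat.lt_succ_iff_lt_or_eq.1 hi with hlt | rfl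
      · rw [← hx1 i hlt]
        unfold caL
        congr 1
        funext j
        apply hold
        have := j.2
        omega
      · unfold caL rule
        rw [code_eq, hcode8, hx2, hnew, hb2, ← hF]
        congr 1
        omega
    · have h1 := toNat_le (x L)
      have h2 := toNat_le (x (L + 1))
      have h3 := toNat_le (x (L + 2))
      have h4 := toNat_le (x (L + 3))
      have h5 := toNat_le (x (L + 4))
      have h6 := toNat_le (x (L + 5))
      have h7 := toNat_le (x (L + 6))
      have h8 := toNat_le (x (L + 7))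
      have h9 : code8 x' ((L + 1 : ℕ) : ℤ) = 128 * (x (L + 1)).toNat + 64 * (x (L + 2)).toNat +
          32 * (x (L + 3)).toNat + 16 * (x (L + 4)).toNat + 8 * (x (L + 5)).toNat +
          4 * (x (L + 6)).toNat + 2 * (x (L + 7)).toNat + b % 2 := by
        unfold code8
        rw [← hb2, ← hnew, ← hold (L + 1) (by omega), ← hold (L + 2) (by omega),
          ← hold (L + 3) (by omega), ← hold (L + 4) (by omega), ← hold (L + 5) (by omega),
          ← hold (L + 6) (by omega), ← hold (L + 7) (by omega)]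
        have e : ((L + 1 : ℕ) : ℤ) = (L : ℤ) + 1 := by push_cast; rfl
        rw [e]
        have e2 : ∀ a b : ℤ, (L : ℤ) + a + b = L + (a + b) := fun a b => add_assoc _ _ _
        simp only [e2]
        norm_num
      rw [h9]
      unfold code8 at hx2
      omega

theorem window (y : ℤ → Bool) (L : ℕ) : ∃ x : ℤ → Bool, ∀ i : ℕ, i < L → caL 8 rule x i = y i := by
  obtain ⟨k, hk, hx⟩ := finite_window y L
  obtain ⟨⟨b, hb, hT⟩, -⟩ := checkAll_sound checkAll_ok k hk
  obtain ⟨x, hx1, -⟩ := hx b hb hT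
  exact ⟨x, hx1⟩

theorem window' (y : ℤ → Bool) (K : ℕ) :
    ∃ x : ℤ → Bool, ∀ i : ℤ, |i| ≤ K → caL 8 rule x i = y i := by
  obtain ⟨x, hx⟩ := window (fun i => y (i - K)) (2 * K + 1)
  refine ⟨fun i => x (i + K), ?_⟩
  intro i hi
  rw [abs_le] at hi
  have h := hx (i + K).toNat (by omega)
  have h2 : (((i + K).toNat : ℕ) : ℤ) = i + K := Int.toNat_of_nonneg (by omega)
  rw [h2] at h
  rw [show y i = y (i + K - K) by rw [add_sub_cancel_right], ← h]
  unfold caL
  congr 1
  funext j
  rw [add_right_comm]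

theorem continuous_ca (i : ℤ) : Continuous (fun x : ℤ → Bool => caL 8 rule x i) := by
  have h1 : Continuous (fun x : ℤ → Bool => (fun j : Fin (8 + 1) => x (i + ((j : ℕ) : ℤ)))) :=
    continuous_pi fun j => continuous_apply _
  exact (continuous_of_discreteTopology (f := rule)).comp h1

theorem surjective : Function.Surjective (caL 8 rule) := by
  intro y
  let C : ℕ → Set (ℤ → Bool) := fun K => {x | ∀ i : ℤ, |i| ≤ K → caL 8 rule x i = y i}
  have hcl : ∀ K, IsClosed (C K) := by
    intro K
    have : C K = ⋂ (i : ℤ) (_ : |i| ≤ K), {x | caL 8 rule x i = y i} := by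
      ext x
      simp [C]
    rw [this]
    exact isClosed_iInter fun i => isClosed_iInter fun _ =>
      (isClosed_discrete ({y i} : Set Bool)).preimage (continuous_ca i)
  obtain ⟨x, hx⟩ := IsCompact.nonempty_iInter_of_sequence_nonempty_isCompact_isClosed C
    (fun K x hx i hi => hx i (hi.trans (by push_cast; omega)))
    (fun K => window' y K) (hcl 0).isCompact hcl
  refine ⟨x, ?_⟩
  funext i
  have h := Set.mem_iInter.1 hx i.natAbs
  exact h i (by rw [Int.abs_eq_natAbs])

end Pool.Agent.Lib.MP_0d2fa0_co
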